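import Pool.Agent.H31.GUF.Targets

/-!
Module BR of the board guf_modules (MP_c59857_nt): the Gowers norms on `ZMod q` and the cubes of
integers.
-/

set_option autoImplicit false

open Finset

namespace Pool.Agent.H39.GUF

open Pool.Agent.H31.DP Pool.Agent.H31.GUF
open Pool.Agent.H28.GU (Gw gG Dl Fc)

section

variable {q : ℕ} [NeZero q]

/-- the function on `ZMod q` given by `a` on the finite set `A` -/
def uu (A : Finset ℤ) (a : ℤ → ℝ) (x : ZMod q) : ℝ :=
  ∑ p ∈ A.filter (fun p : ℤ => (p : ZMod q) = x), a p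

omit [NeZero q] in
theorem cast_inj {a b : ℤ} (h : (a : ZMod q) = b) (h1 : b - a < q) (h2 : a - b < q) : a = b := by
  have h3 : (q : ℤ) ∣ b - a := (ZMod.intCast_eq_intCast_iff_dvd_sub a b q).1 h
  have h4 : b - a = 0 := Int.eq_zero_of_abs_lt_dvd h3 (by rw [abs_lt]; omega)
  omega

omit [NeZero q] in
theorem uu_of_mem {N : ℕ} (hq : 2 * N < q) {A : Finset ℤ} (hA : ∀ p ∈ A, 1 ≤ p ∧ p ≤ (N : ℤ))
    (a : ℤ → ℝ) {p : ℤ} (hp : p ∈ A) : uu A a (p : ZMod q) = a p := by
  unfold uu
  rw [Finset.sum_eq_single p]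
  · intro b hb hne
    rw [Finset.mem_filter] at hb
    have h1 := hA b hb.1
    have h2 := hA p hp
    exact absurd (cast_inj hb.2 (by omega) (by omega)) hne
  · intro h
    rw [Finset.mem_filter] at h
    exact absurd ⟨hp, rfl⟩ h

omit [NeZero q] in
theorem uu_of_notMem {A : Finset ℤ} (a : ℤ → ℝ) {x : ZMod q}
    (hx : ∀ p ∈ A, (p : ZMod q) ≠ x) : uu A a x = 0 := by
  unfold uu
  refine Finset.sum_eq_zero fun p hp => ?_
  rw [Finset.mem_filter] at hp
  exact absurd hp.2 (hx p hp.1)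

omit [NeZero q] in
/-- the product of two translates -/
theorem uu_mul {N : ℕ} (hq : 2 * N < q) {A : Finset ℤ} (hA : ∀ p ∈ A, 1 ≤ p ∧ p ≤ (N : ℤ))
    (a : ℤ → ℝ) {t : ℤ} (ht : -(N : ℤ) ≤ t ∧ t ≤ N) :
    (fun x : ZMod q => uu A a x * uu A a (x + (t : ZMod q))) =
      uu (A.filter (fun p => p + t ∈ A)) (fun p => a p * a (p + t)) := by
  funext x
  have hA' : ∀ p ∈ A.filter (fun p => p + t ∈ A), 1 ≤ p ∧ p ≤ (N : ℤ) :=
    fun p hp => hA p (Finset.mem_filter.1 hp).1
  by_cases hx : ∃ p ∈ A, (p : ZMod q) = x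
  · obtain ⟨p, hp, rfl⟩ := hx
    rw [uu_of_mem hq hA a hp]
    by_cases hpt : p + t ∈ A
    · have h1 : ((p : ZMod q) + (t : ZMod q)) = ((p + t : ℤ) : ZMod q) := by push_cast; rfl
      rw [h1, uu_of_mem hq hA a hpt, uu_of_mem hq hA' _ (Finset.mem_filter.2 ⟨hp, hpt⟩)]
    · rw [uu_of_notMem a (x := (p : ZMod q) + (t : ZMod q)), mul_zero, uu_of_notMem]
      · intro b hb h
        rw [Finset.mem_filter] at hb
        have h1 := hA b hb.1
        have h2 := hA p hp
        have h3 := cast_inj h (by omega) (by omega)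
        rw [h3] at hb
        exact hpt hb.2
      · intro b hb h
        have h1 := hA b hb
        have h2 := hA p hp
        have h3 : ((b : ℤ) : ZMod q) = ((p + t : ℤ) : ZMod q) := by push_cast; exact h
        have h4 : (q : ℤ) ∣ (p + t) - b := (ZMod.intCast_eq_intCast_iff_dvd_sub b (p + t) q).1 h3
        have h5 : (p + t) - b = 0 := Int.eq_zero_of_abs_lt_dvd h4 (by rw [abs_lt]; omega)
        have h6 : b = p + t := by omega
        rw [h6] at hb
        exact hpt hb
  · push Not at hx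
    rw [uu_of_notMem a hx, zero_mul, uu_of_notMem]
    intro p hp
    exact hx p (Finset.mem_filter.1 hp).1

omit [NeZero q] in
theorem Dl_zero : ∀ (k : ℕ) (s : Fin k → ZMod q) (n : ZMod q), Dl k s (fun _ => (0 : ℝ)) n = 0 := by
  intro k
  induction k with
  | zero => intro s n; rfl
  | succ k ih =>
    intro s n
    show Dl k (Fin.tail s) (fun _ => (0 : ℝ) * 0) n = 0
    rw [mul_zero]
    exact ih _ n

theorem Gw_zero (k : ℕ) : Gw k (fun _ : ZMod q => (0 : ℝ)) = 0 := by
  unfold Gw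
  simp only [Dl_zero, Finset.sum_const_zero]

theorem Gw_succ (k : ℕ) (u : ZMod q → ℝ) :
    Gw (k + 1) u = ∑ s0 : ZMod q, Gw k (fun x => u x * u (x + s0)) := by
  unfold Gw
  rw [← (Fin.consEquiv (fun _ : Fin (k + 1) => ZMod q)).sum_comp, Fintype.sum_prod_type]
  refine Finset.sum_congr rfl fun s0 _ => Finset.sum_congr rfl fun s _ => ?_
  refine Finset.sum_congr rfl fun n _ => ?_
  rfl

theorem Gw_uu {N : ℕ} (hq : 2 * N < q) (k : ℕ) : ∀ (A : Finset ℤ) (a : ℤ → ℝ),
    (∀ p ∈ A, 1 ≤ p ∧ p ≤ (N : ℤ)) →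
    Gw k (uu A a : ZMod q → ℝ) = (Uc N k A (fun p => ((a p : ℝ) : ℂ))).re := by
  induction k with
  | zero =>
    intro A a _
    have h1 : Gw 0 (uu A a : ZMod q → ℝ) = ∑ n : ZMod q, uu A a n := by
      unfold Gw
      rw [Fintype.sum_unique]
      rfl
    rw [h1]
    show _ = (∑ p ∈ A, ((a p : ℝ) : ℂ)).re
    rw [Complex.re_sum]
    simp only [Complex.ofReal_re]
    unfold uu
    exact Finset.sum_fiberwise A (fun p : ℤ => (p : ZMod q)) a
  | succ k ih =>
    intro A a hA
    rw [Gw_succ]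
    show _ = (∑ t ∈ Finset.Icc (-(N : ℤ)) N, Uc N k (A.filter (fun p => p + t ∈ A))
      (fun p => ((a p : ℝ) : ℂ) * (starRingEnd ℂ) ((a (p + t) : ℝ) : ℂ))).re
    rw [Complex.re_sum]
    have hinj : Set.InjOn (fun t : ℤ => (t : ZMod q)) (Finset.Icc (-(N : ℤ)) N : Finset ℤ) := by
      intro t ht s hs h
      rw [Finset.mem_coe, Finset.mem_Icc] at ht hs
      exact cast_inj h (by omega) (by omega)
    rw [← Finset.sum_subset (Finset.subset_univ ((Finset.Icc (-(N : ℤ)) N).image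
      (fun t : ℤ => (t : ZMod q)))), Finset.sum_image hinj]
    · refine Finset.sum_congr rfl fun t ht => ?_
      rw [Finset.mem_Icc] at ht
      rw [uu_mul hq hA a ht, ih _ _ (fun p hp => hA p (Finset.mem_filter.1 hp).1)]
      congr 2
      funext p
      rw [Complex.conj_ofReal, Complex.ofReal_mul]
    · intro s0 _ hs0
      have h1 : (fun x : ZMod q => uu A a x * uu A a (x + s0)) = fun _ => (0 : ℝ) := by
        funext x
        by_cases hx : ∃ p ∈ A, (p : ZMod q) = x
        · obtain ⟨p, hp, rfl⟩ := hx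
          rw [uu_of_notMem a (x := (p : ZMod q) + s0), mul_zero]
          intro b hb h
          apply hs0
          have h1 := hA b hb
          have h2 := hA p hp
          refine Finset.mem_image.2 ⟨b - p, Finset.mem_Icc.2 ⟨by omega, by omega⟩, ?_⟩
          push_cast
          rw [h]
          ring
        · push Not at hx
          rw [uu_of_notMem a hx, zero_mul]
      rw [h1, Gw_zero]

theorem gG_eq {l : ℕ} (h : Fin l → ℕ) {N : ℕ} (hq : 2 * N < q) :
    gG q h N = uu (Finset.Icc (1 : ℤ) N) (FF h 1) := by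
  funext x
  have hx : (((x.val : ℕ) : ℤ) : ZMod q) = x := by
    rw [Int.cast_natCast, ZMod.natCast_zmod_val]
  unfold gG Fc
  split_ifs with h1
  · rw [← uu_of_mem hq (A := Finset.Icc (1 : ℤ) N) (fun p hp => Finset.mem_Icc.1 hp) (FF h 1)
      (Finset.mem_Icc.2 h1), hx]
  · rw [uu_of_notMem]
    intro p hp hpx
    apply h1
    rw [Finset.mem_Icc] at hp
    have h2 := ZMod.val_lt x
    have h3 : p = ((x.val : ℕ) : ℤ) := by
      refine cast_inj (hpx.trans hx.symm) ?_ ?_
      · omega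
      · omega
    rw [← h3]
    exact hp

end

theorem pf_BR : F_BR := by
  intro l h k N q _ hq
  rw [gG_eq h hq, Gw_uu hq k _ _ (fun p hp => Finset.mem_Icc.1 hp)]
  rfl

end Pool.Agent.H39.GUF
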